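import Mathlib

/-! # Project FV (MP_3703a7_ag), module GC: a power sum in `𝔽_p` -/

set_option autoImplicit false

namespace Pool.Agent.helper76.FV

open Finset

theorem GC_sum (p : ℕ) [Fact p.Prime] (i : ℕ) (h0 : 0 < i) (h2 : i < 2 * (p - 1)) :
    ∑ x : ZMod p, x ^ i = if i = p - 1 then -1 else 0 := by
  have hp : 2 ≤ p := (Fact.out : p.Prime).two_le
  have hcard : Fintype.card (ZMod p) = p := ZMod.card p
  by_cases h1 : i < p - 1
  · rw [if_neg (by omega)]
    exact FiniteField.sum_pow_lt_card_sub_one (ZMod p) i (by rwa [hcard])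
  · by_cases he : i = p - 1
    · rw [if_pos he, he]
      have h3 : ∀ x : ZMod p, x ^ (p - 1) = 1 - (if x = 0 then 1 else 0) := by
        intro x
        by_cases hx : x = 0
        · rw [if_pos hx, hx, zero_pow (by omega), sub_self]
        · rw [if_neg hx, sub_zero]
          exact ZMod.pow_card_sub_one_eq_one hx
      simp_rw [h3]
      rw [sum_sub_distrib, sum_ite_eq' univ (0 : ZMod p) (fun _ => (1 : ZMod p))]
      simp
    · rw [if_neg he]
      have h3 : ∀ x : ZMod p, x ^ i = x ^ (i - (p - 1)) := by
        intro x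
        by_cases hx : x = 0
        · rw [hx, zero_pow (by omega), zero_pow (by omega)]
        · have h4 : x ^ i = x ^ (i - (p - 1)) * x ^ (p - 1) := by
            rw [← pow_add]; congr 1; omega
          rw [h4, ZMod.pow_card_sub_one_eq_one hx, mul_one]
      simp_rw [h3]
      exact FiniteField.sum_pow_lt_card_sub_one (ZMod p) _ (by rw [hcard]; omega)

theorem pow_sum (p : ℕ) [Fact p.Prime] (A B : ℕ) (hA : 0 < A) (hB : 0 < B) (hA' : A < p - 1)
    (hB' : B < p - 1) (h : A + B ≠ p - 1) :
    (∑ x : ZMod p, x ^ A * (1 - x) ^ B = 0 ↔ A + B < p - 1) := by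
  have hpp : p.Prime := Fact.out
  have hexp : ∑ x : ZMod p, x ^ A * (1 - x) ^ B =
      ∑ j ∈ range (B + 1), ((-1) ^ j * (B.choose j : ZMod p)) * (if A + j = p - 1 then -1 else 0) := by
    have h1 : ∀ x : ZMod p, x ^ A * (1 - x) ^ B =
        ∑ j ∈ range (B + 1), ((-1) ^ j * (B.choose j : ZMod p)) * x ^ (A + j) := by
      intro x
      have h2 : (1 - x) = (-x) + 1 := by ring
      rw [h2, add_pow, mul_sum]
      refine sum_congr rfl fun j _ => ?_
      rw [one_pow, mul_one, neg_pow, pow_add]
      ring
    simp_rw [h1]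
    rw [sum_comm]
    refine sum_congr rfl fun j hj => ?_
    rw [← mul_sum, GC_sum p (A + j) (by omega) (by have := mem_range.1 hj; omega)]
  rw [hexp]
  constructor
  · intro hz
    by_contra hcon
    have hj : p - 1 - A ∈ range (B + 1) := mem_range.2 (by omega)
    rw [sum_eq_single (p - 1 - A)] at hz
    · rw [if_pos (by omega)] at hz
      have h3 : ((B.choose (p - 1 - A) : ℕ) : ZMod p) = 0 := by
        have h4 : ((-1 : ZMod p) ^ (p - 1 - A)) ≠ 0 := pow_ne_zero _ (by
          rw [Ne, neg_eq_zero]; exact one_ne_zero)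
        have h5 : ((-1 : ZMod p) ^ (p - 1 - A)) * ((B.choose (p - 1 - A) : ℕ) : ZMod p) = 0 := by
          have := congrArg Neg.neg hz
          rwa [mul_neg_one, neg_neg, neg_zero] at this
        exact (mul_eq_zero.1 h5).resolve_left h4
      rw [ZMod.natCast_eq_zero_iff] at h3
      have h6 : p ∣ B.factorial := by
        have h7 := Nat.choose_mul_factorial_mul_factorial (n := B) (k := p - 1 - A) (by omega)
        rw [← h7]
        exact (h3.mul_right _).mul_right _
      rw [hpp.dvd_factorial] at h6
      omega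
    · intro j _ hne
      rw [if_neg (by omega), mul_zero]
    · intro hn
      exact absurd hj hn
  · intro hlt
    refine sum_eq_zero fun j hj => ?_
    have := mem_range.1 hj
    rw [if_neg (by omega), mul_zero]

end Pool.Agent.helper76.FV
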